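import Pool.Agent.Q296.Planch.Main

/-!
# `λ_1 + … + λ_r` is not log-concave under the Plancherel measure

For every `r ≥ 2` and all sufficiently large `n` the distribution of `S_r = λ_1 + … + λ_r` under
the Plancherel measure on partitions of `n` is not log-concave: the inequality fails at
`j = 2r - 1`.
-/

namespace Pool.Agent.Results.MP_64a7c6_pr.TopRowsNotLogConcave

open Q296.Planch

theorem result :
    ∀ r : ℕ, 2 ≤ r → ∃ N : ℕ, ∀ n : ℕ, N ≤ n →
      massTopRows n r (2 * r - 1) ^ 2 <
        massTopRows n r (2 * r - 2) * massTopRows n r (2 * r) :=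
  fun r hr => main r hr

end Pool.Agent.Results.MP_64a7c6_pr.TopRowsNotLogConcave
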